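import Pool.Agent.Helper53.PF.St

/-!
# Project PF, module DGA: the Z-degree of `N1`
-/

set_option autoImplicit false

namespace PF.Helper29

open Polynomial

private theorem dga_g {k : Type} [Field k] [CharZero k] (n : k) :
    (4 * (C (C n) - X ^ 3) - C X : k[X][X]).natDegree = 3 := by
  have h4 : (-4 : k[X]) ≠ 0 := by
    have h := (Polynomial.C_injective (R := k)).ne (show (-4 : k) ≠ 0 by norm_num)
    simpa using h
  have h : (4 * (C (C n) - X ^ 3) - C X : k[X][X]) =
      C (-4) * X ^ 3 + C (4 * C n - X) := by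
    simp only [map_neg, map_sub, map_mul, map_ofNat]
    ring
  rw [h, natDegree_add_C, natDegree_C_mul_X_pow 3 _ h4]

private theorem dga_3 {k : Type} [Field k] [CharZero k] : (3 * X : k[X]) ≠ 0 := by
  have h := (Polynomial.C_injective (R := k)).ne (show (3 : k) ≠ 0 by norm_num)
  have h3 : (3 : k[X]) ≠ 0 := by simpa using h
  exact mul_ne_zero h3 X_ne_zero

theorem holds_DGA : PF.StDGA := by
  intro k _ _ n p q
  have hg := dga_g n
  have hg0 : (4 * (C (C n) - X ^ 3) - C X : k[X][X]) ≠ 0 := by
    intro h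
    rw [h, natDegree_zero] at hg
    omega
  have hA : (3 * C X : k[X][X]) = C (3 * X) := by
    rw [map_mul, map_ofNat]
  -- the degrees of the two terms
  have dA : p ≠ 0 → (3 * C X * p ^ 2 : k[X][X]).natDegree = 2 * p.natDegree := by
    intro hp
    rw [hA, natDegree_C_mul dga_3, natDegree_pow]
  have dB : q ≠ 0 → (q ^ 2 * (4 * (C (C n) - X ^ 3) - C X) : k[X][X]).natDegree =
      2 * q.natDegree + 3 := by
    intro hq
    rw [natDegree_mul (pow_ne_zero 2 hq) hg0, natDegree_pow, hg]
  unfold N1
  by_cases hp : p = 0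
  · by_cases hq : q = 0
    · subst hp
      subst hq
      refine ⟨fun h => absurd ⟨rfl, rfl⟩ h, ?_⟩
      simp
    · subst hp
      have h0 : (3 * C X * (0 : k[X][X]) ^ 2 - q ^ 2 * (4 * (C (C n) - X ^ 3) - C X)) =
          -(q ^ 2 * (4 * (C (C n) - X ^ 3) - C X)) := by ring
      rw [h0]
      refine ⟨fun _ => neg_ne_zero.2 (mul_ne_zero (pow_ne_zero 2 hq) hg0), ?_⟩
      rw [natDegree_neg, dB hq, natDegree_zero]
      omega
  · by_cases hq : q = 0
    · subst hq
      have h0 : (3 * C X * p ^ 2 - (0 : k[X][X]) ^ 2 * (4 * (C (C n) - X ^ 3) - C X)) =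
          3 * C X * p ^ 2 := by ring
      rw [h0]
      refine ⟨fun _ => ?_, ?_⟩
      · rw [hA]
        exact mul_ne_zero (fun h => dga_3 (C_eq_zero.1 h)) (pow_ne_zero 2 hp)
      · rw [dA hp, natDegree_zero]
        omega
    · have d1 := dA hp
      have d2 := dB hq
      refine ⟨fun _ h => ?_, ?_⟩
      · rw [sub_eq_zero] at h
        rw [h, d2] at d1
        omega
      · rcases lt_or_ge (2 * p.natDegree) (2 * q.natDegree + 3) with h | h
        · rw [natDegree_sub_eq_right_of_natDegree_lt (by rw [d1, d2]; exact h), d2]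
          omega
        · rw [natDegree_sub_eq_left_of_natDegree_lt (by rw [d1, d2]; omega), d1]
          omega

end PF.Helper29
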