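import Pool.Agent.Helper53.PF.St

/-!
# Project PF, module LNC: the derivation identity on the curve
-/

set_option autoImplicit false

namespace PF.Helper29

open Polynomial

private theorem lnc_evC {k : Type} [Field k] (s z a : k[X]) : ev s z (C a) = a.comp s := by
  unfold ev
  rw [coe_eval₂RingHom, eval₂_C, coe_compRingHom_apply]

private theorem lnc_evX {k : Type} [Field k] (s z : k[X]) : ev s z X = z := by
  unfold ev
  rw [coe_eval₂RingHom, eval₂_X]

private theorem lnc_der {k : Type} [Field k] (n : k) (D a b c : k[X]) :
    derivative (FQ n D a b c) =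
      6 * C X * (C a + C b * X + C c * X ^ 2) * (C b + 2 * C c * X) + 12 * C (D ^ 2) * X ^ 2 := by
  unfold FQ
  simp only [derivative_add, derivative_sub, derivative_mul, derivative_C, derivative_X,
    derivative_pow, derivative_ofNat, Nat.cast_ofNat]
  simp only [map_ofNat, zero_mul, mul_zero, zero_add, add_zero, sub_zero, mul_one]
  ring

theorem holds_LNC : PF.StLNC := by
  intro _ k _ _ n s z w hcrv V hV D a b c _ hQ
  have hw : w ≠ 0 := by
    rintro rfl
    have := hcrv.dw
    rw [natDegree_zero] at this
    omega
  have hcur := hcrv.eq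
  -- the derivatives of the two relations
  have hQ' := congrArg derivative hQ
  have hcur' := congrArg derivative hcur
  simp only [derivative_add, derivative_mul, derivative_pow, derivative_comp, derivative_ofNat,
    derivative_C, Nat.cast_ofNat, map_ofNat, zero_mul, zero_add] at hQ' hcur'
  norm_num at hQ' hcur'
  -- evaluation of the two polynomials
  have e1 : ev s z (derivative (FQ n D a b c)) =
      6 * s * (a.comp s + b.comp s * z + c.comp s * z ^ 2) * (b.comp s + 2 * c.comp s * z) +
        12 * (D.comp s) ^ 2 * z ^ 2 := by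
    rw [lnc_der]
    simp only [map_add, map_mul, map_pow, map_ofNat, lnc_evC, lnc_evX, X_comp]
  have e2 : ev s z (GQ n D a b c) =
      (C (4 * n) - s ^ 3) * (3 * D.comp s * (a.comp s + b.comp s * z + c.comp s * z ^ 2)
        + 6 * (s * D.comp s) * ((derivative a).comp s + (derivative b).comp s * z
          + (derivative c).comp s * z ^ 2)
        - 6 * (s * (derivative D).comp s) * (a.comp s + b.comp s * z + c.comp s * z ^ 2))
      - 6 * (s ^ 3 * D.comp s) * z * (b.comp s + 2 * c.comp s * z)
      + 9 * (s ^ 3 * D.comp s) * (a.comp s + b.comp s * z + c.comp s * z ^ 2) := by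
    unfold GQ
    simp only [map_add, map_sub, map_mul, map_pow, map_ofNat, lnc_evC, lnc_evX, X_comp,
      C_comp]
  rw [e1, e2, ← hQ]
  apply mul_left_cancel₀ hw
  generalize a.comp s = a0 at *
  generalize b.comp s = b0 at *
  generalize c.comp s = c0 at *
  generalize D.comp s = d0 at *
  generalize (derivative a).comp s = a1 at *
  generalize (derivative b).comp s = b1 at *
  generalize (derivative c).comp s = c1 at *
  generalize (derivative D).comp s = d1 at *
  linear_combination (6 * s * (d0 * w) * (b0 + 2 * c0 * z) + 12 * d0 ^ 2 * z ^ 2) * hV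
    - 6 * s * w * d0 * (C (4 * n) - s ^ 3) * hQ' + (C (4 * n) - s ^ 3) * d0 ^ 2 * hcur'
    + 3 * s ^ 2 * derivative s * d0 ^ 2 * hcur

end PF.Helper29
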