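import Pool.Agent.Helper53.PF.St

/-!
# Project PF, module MIN: a monic cubic relation
-/

set_option autoImplicit false

namespace PF.Helper29

open Polynomial

private theorem min_evC {k : Type} [Field k] (s z a : k[X]) : ev s z (C a) = a.comp s := by
  unfold ev
  rw [coe_eval₂RingHom, eval₂_C, coe_compRingHom_apply]

private theorem min_evX {k : Type} [Field k] (s z : k[X]) : ev s z X = z := by
  unfold ev
  rw [coe_eval₂RingHom, eval₂_X]

theorem holds_MIN : PF.StMIN := by
  intro hREP k _ s z hs
  choose a b c h _ _ _ using fun f : k[X] => hREP k s f hs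
  let B : Matrix (Fin 3) (Fin 3) k[X] := fun i j =>
    ![![a z, b z, c z], ![a (z * X), b (z * X), c (z * X)],
      ![a (z * X ^ 2), b (z * X ^ 2), c (z * X ^ 2)]] i j
  refine ⟨B.charpoly, B.charpoly_monic, by rw [Matrix.charpoly_natDegree_eq_dim]; rfl, ?_⟩
  rw [Matrix.charpoly, RingHom.map_det, ← Matrix.exists_mulVec_eq_zero_iff]
  refine ⟨![1, X, X ^ 2], ?_, ?_⟩
  · intro h0
    have := congrFun h0 0
    simp at this
  · have hent : ∀ i j, (ev s z).mapMatrix B.charmatrix i j =
        (if i = j then z else 0) - (B i j).comp s := by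
      intro i j
      rw [RingHom.mapMatrix_apply, Matrix.map_apply, Matrix.charmatrix_apply, map_sub, min_evC,
        Matrix.diagonal_apply]
      split_ifs with hij
      · rw [min_evX]
      · rw [map_zero]
    have h1 := h z
    have h2 := h (z * X)
    have h3 := h (z * X ^ 2)
    funext i
    rw [Matrix.mulVec, dotProduct, Fin.sum_univ_three, hent, hent, hent]
    fin_cases i
    · show (z - (a z).comp s) * 1 + (0 - (b z).comp s) * X + (0 - (c z).comp s) * X ^ 2 = 0
      linear_combination h1
    · show (0 - (a (z * X)).comp s) * 1 + (z - (b (z * X)).comp s) * X +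
        (0 - (c (z * X)).comp s) * X ^ 2 = 0
      linear_combination h2
    · show (0 - (a (z * X ^ 2)).comp s) * 1 + (0 - (b (z * X ^ 2)).comp s) * X +
        (z - (c (z * X ^ 2)).comp s) * X ^ 2 = 0
      linear_combination h3

end PF.Helper29
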